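import Pool.Agent.helper4.T7.SpecQ

set_option autoImplicit false

/-!
# T7 (MP_16912e_nt), row QEF: the equidistribution along the filter
-/

namespace Pool.Agent.T7

open Finset Pool.Agent.helper3.FT Pool.Agent.T5 Pool.Agent.T6

theorem QEF : QEF_stmt := by
  intro hE R hR a b ha0 ha1 ha4 hab e c he hc ε hε
  obtain ⟨η, hη, hη1, h⟩ := hE
  obtain ⟨C, N₀, hC, h⟩ := h a b ha0 ha1 ha4 hab e c he hc (ε / 2) (by positivity)
  have hR0 : 0 < R := by linarith
  unfold FR
  rw [Filter.eventually_map, Filter.eventually_curry_iff]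
  have hlim : Filter.Tendsto (fun r : ℝ => C * (r * R) ^ (3 / 2 : ℝ)) (nhds 0) (nhds 0) := by
    have h1 : Continuous (fun r : ℝ => C * (r * R) ^ (3 / 2 : ℝ)) :=
      continuous_const.mul ((Real.continuous_rpow_const (by norm_num)).comp (continuous_id.mul continuous_const))
    have h2 := h1.tendsto 0
    have h3 : C * ((0 : ℝ) * R) ^ (3 / 2 : ℝ) = 0 := by
      rw [zero_mul, Real.zero_rpow (by norm_num), mul_zero]
    rwa [h3] at h2
  have e1 : ∀ᶠ r : ℝ in nhdsWithin 0 (Set.Ioi 0), C * (r * R) ^ (3 / 2 : ℝ) < ε / 2 :=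
    (hlim.mono_left nhdsWithin_le_nhds).eventually_lt_const (by positivity)
  have e2 : ∀ᶠ r : ℝ in nhdsWithin 0 (Set.Ioi 0), r < 1 / R :=
    (Filter.tendsto_id.mono_left nhdsWithin_le_nhds).eventually_lt_const (by positivity)
  have e3 : ∀ᶠ r : ℝ in nhdsWithin 0 (Set.Ioi 0), r ∈ Set.Ioi (0 : ℝ) := self_mem_nhdsWithin
  filter_upwards [e1, e2, e3] with r hr1 hr2 hr3
  have hr0 : 0 < r := hr3
  have hrR : r * R < 1 := by rwa [lt_div_iff₀ hR0] at hr2
  filter_upwards [Filter.eventually_ge_atTop N₀, Filter.eventually_gt_atTop (0 : ℝ),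
    (tendsto_rpow_atTop hη).eventually_ge_atTop (R / r),
    (tendsto_rpow_atTop hη).eventually_ge_atTop (1 / (r * R))] with N hN0 hN hNa hNb
  intro S hS
  have hs : 0 < √N := Real.sqrt_pos.2 hN
  have hss : √N * √N = N := Real.mul_self_sqrt hN.le
  have hYY : r * √N * (R * √N) = r * R * N := by
    calc r * √N * (R * √N) = r * R * (√N * √N) := by ring
      _ = r * R * N := by rw [hss]
  have hrR0 : 0 < r * R := by positivity
  have hrg : Rg η N (r * √N) (R * √N) := by
    refine ⟨?_, ?_, ?_, ?_⟩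
    · apply mul_le_mul_of_nonneg_right _ hs.le
      have : r ≤ r * R := le_mul_of_one_le_right hr0.le hR
      linarith
    · rw [div_le_iff₀ hr0] at hNa
      calc R * √N ≤ N ^ η * r * √N := mul_le_mul_of_nonneg_right hNa hs.le
        _ = N ^ η * (r * √N) := by ring
    · rw [hYY]
      have : r * R * N ≤ 1 * N := mul_le_mul_of_nonneg_right hrR.le hN.le
      linarith
    · rw [hYY]
      rw [div_le_iff₀ hrR0] at hNb
      have h1 : N ^ (1 - η) * N ^ η = N := by
        rw [← Real.rpow_add hN]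
        norm_num
      have h2 : 0 < N ^ (1 - η) := Real.rpow_pos_of_pos hN _
      calc N ^ (1 - η) = N ^ (1 - η) * 1 := by ring
        _ ≤ N ^ (1 - η) * (N ^ η * (r * R)) := mul_le_mul_of_nonneg_left hNb h2.le
        _ = r * R * (N ^ (1 - η) * N ^ η) := by ring
        _ = r * R * N := by rw [h1]
  have h1 := h N (r * √N) (R * √N) hN0 hrg S hS
  have h2 : r * √N * (R * √N) / N = r * R := by
    rw [hYY]
    field_simp
  rw [h2] at h1
  have h3 : 0 ≤ r * √N * (R * √N) := by positivity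
  have h4 : (ε / 2 + C * (r * R) ^ (3 / 2 : ℝ)) * (r * √N * (R * √N)) ≤ ε * (r * √N * (R * √N)) :=
    mul_le_mul_of_nonneg_right (by linarith) h3
  unfold mainE
  exact h1.trans h4

end Pool.Agent.T7
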